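import Pool.Agent.K4H60.CX.D4

set_option autoImplicit false

open Polynomial NumberField IntermediateField

namespace Pool.Agent.K4H60.CX

section disc

variable (n : ℕ) [NeZero n] (L : Type) [Field L] [NumberField L]
  [hL : IsCyclotomicExtension {n} ℚ L]

variable {p a m : ℕ} (hp : p.Prime) (hpm : ¬ p ∣ m) (hn : n = p ^ a * m)
include hp hpm hn

lemma disc_L : (discr L).natAbs.factorization p +
    m.totient * ∑ j ∈ Finset.range a, (p ^ j).totient = a * n.totient := by
  classical
  rw [IsCyclotomicExtension.Rat.natAbs_discr n L]
  have hdvd := Nat.prod_primeFactors_pow_totient_ediv_dvd (n := n) (NeZero.pos n)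
  have hn0 : n ≠ 0 := NeZero.ne n
  have hm0 : m ≠ 0 := by
    rintro rfl
    exact hpm (dvd_zero p)
  have hv1 : (n ^ n.totient).factorization p = a * n.totient := by
    have hf : n.factorization p = a := by
      rw [hn, Nat.factorization_mul (pow_ne_zero _ hp.ne_zero) hm0, hp.factorization_pow]
      simp [Nat.factorization_eq_zero_of_not_dvd hpm]
    rw [Nat.factorization_pow, Finsupp.smul_apply, hf, smul_eq_mul, mul_comm]
  have hcp : Nat.Coprime (p ^ a) m := Nat.Coprime.pow_left a ((Nat.Prime.coprime_iff_not_dvd hp).2 hpm)
  have hv2 : (∏ q ∈ n.primeFactors, q ^ (n.totient / (q - 1))).factorization p =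
      m.totient * ∑ j ∈ Finset.range a, (p ^ j).totient := by
    rw [Nat.factorization_prod (fun q hq => pow_ne_zero _ (Nat.prime_of_mem_primeFactors hq).ne_zero),
      Finsupp.finset_sum_apply]
    cases a with
    | zero =>
      rw [Finset.range_zero, Finset.sum_empty, mul_zero]
      refine Finset.sum_eq_zero fun q hq => ?_
      rw [(Nat.prime_of_mem_primeFactors hq).factorization_pow, Finsupp.single_eq_of_ne]
      rintro rfl
      apply hpm
      have := Nat.dvd_of_mem_primeFactors hq
      rwa [hn, pow_zero, one_mul] at this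
    | succ b =>
      rw [Finset.sum_eq_single p]
      · rw [hp.factorization_pow, Finsupp.single_eq_same, sum_tot hp, hn, Nat.totient_mul hcp,
          Nat.totient_prime_pow_succ hp]
        apply Nat.div_eq_of_eq_mul_left (by have := hp.two_le; omega)
        ring
      · intro q hq hne
        rw [(Nat.prime_of_mem_primeFactors hq).factorization_pow, Finsupp.single_eq_of_ne]
        exact fun h => hne h.symm
      · intro h
        refine absurd (Nat.mem_primeFactors.2 ⟨hp, ?_, hn0⟩) h
        rw [hn, pow_succ, mul_assoc, mul_left_comm]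
        exact dvd_mul_right _ _
  rw [Nat.factorization_div hdvd, Finsupp.tsub_apply, hv1, hv2]
  have hle : m.totient * ∑ j ∈ Finset.range a, (p ^ j).totient ≤ a * n.totient := by
    rw [← hv1, ← hv2]
    exact (Nat.factorization_le_iff_dvd (fun h => by
      rw [h, zero_dvd_iff] at hdvd
      exact pow_ne_zero _ hn0 hdvd) (pow_ne_zero _ hn0)).2 hdvd p
  exact Nat.sub_add_cancel hle

end disc

end Pool.Agent.K4H60.CX
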