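import Pool.Agent.K4H53.CX.Stm4
import Pool.Agent.K4H60.CX.D5

/-!
# The conductor-discriminant formula, the side of the discriminant
-/

set_option autoImplicit false

open Polynomial NumberField IntermediateField

namespace Pool.Agent.K4H60.CX

open Pool.Agent.K4H53.CX (hh S_DISCA)

section main

variable (n : ℕ) [NeZero n] (L : Type) [Field L] [NumberField L]
  [hL : IsCyclotomicExtension {n} ℚ L] (F : IntermediateField ℚ L)

lemma sum_gal [Fintype F.fixingSubgroup] (f : Gal(L/ℚ) → ℕ) :
    ∑ σ : Gal(L/F), f (σ.restrictScalars ℚ) = ∑ σ : F.fixingSubgroup, f σ := by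
  classical
  refine (Fintype.sum_equiv (IntermediateField.fixingSubgroupEquiv F).toEquiv _ _ fun σ => ?_).symm
  congr 1

variable {p a m : ℕ}

lemma sum_cc [Fintype F.fixingSubgroup] :
    ∑ σ : F.fixingSubgroup,
      cc p a m (IsCyclotomicExtension.Rat.galEquivZMod n L (σ : Gal(L/ℚ))).val.val =
      m.totient * ∑ j ∈ Finset.range a, (p ^ j).totient * hh n L F (p ^ j * m) := by
  classical
  unfold cc
  rw [← Finset.mul_sum, Finset.sum_comm]
  congr 1
  refine Finset.sum_congr rfl fun j _ => ?_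
  rw [← Finset.mul_sum]
  congr 1
  rw [Finset.sum_boole, Nat.cast_id, hh, ← Fintype.card_subtype, ← Nat.card_eq_fintype_card]
  exact Nat.card_congr
    { toFun := fun x => ⟨x.1.1, x.1.2, x.2⟩
      invFun := fun x => ⟨⟨x.1, x.2.1⟩, x.2.2⟩
      left_inv := fun x => rfl
      right_inv := fun x => rfl }

lemma cc_one (hn : n = p ^ a * m) :
    cc p a m (IsCyclotomicExtension.Rat.galEquivZMod n L (1 : Gal(L/ℚ))).val.val =
      m.totient * ∑ j ∈ Finset.range a, (p ^ j).totient := by
  unfold cc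
  congr 1
  refine Finset.sum_congr rfl fun j hj => ?_
  rw [if_pos, mul_one]
  rw [map_one, Units.val_one]
  have hd : p ^ j * m ∣ n := by
    rw [hn]
    exact mul_dvd_mul_right (pow_dvd_pow p (Finset.mem_range.1 hj).le) m
  refine Nat.ModEq.of_dvd hd ?_
  rw [← ZMod.natCast_eq_natCast_iff, ZMod.natCast_val, ZMod.cast_id, Nat.cast_one]

end main

theorem s_disca : S_DISCA := by
  intro n _ L _ _ _ F p a m hp hpm hn
  classical
  have : IsGalois ℚ L := IsCyclotomicExtension.isGalois {n} ℚ L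
  have : Fintype F.fixingSubgroup := Fintype.ofFinite _
  have hζ := IsCyclotomicExtension.zeta_spec n ℚ L
  set ζ := IsCyclotomicExtension.zeta n ℚ L
  have h1 := discr_tower n L F hζ
  have hw : ∀ σ : Gal(L/F), ∃ w : ℕ, w ≠ 0 ∧ (σ ≠ 1 → |Algebra.norm ℚ (ζ - σ ζ)| = w ∧
      w.factorization p =
        cc p a m (IsCyclotomicExtension.Rat.galEquivZMod n L (σ.restrictScalars ℚ)).val.val) := by
    intro σ
    by_cases hσ : σ = 1
    · exact ⟨1, one_ne_zero, fun h => absurd hσ h⟩
    · have hσ' : σ.restrictScalars ℚ ≠ 1 := by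
        intro h
        apply hσ
        ext x
        exact DFunLike.congr_fun h x
      obtain ⟨w, hw0, hw1, hw2⟩ := exists_w n L hp hpm hn hζ hσ'
      exact ⟨w, hw0, fun _ => ⟨hw1, hw2⟩⟩
  choose w hw0 hw using hw
  have h2 : (discr L).natAbs = (∏ σ ∈ (Finset.univ : Finset Gal(L/F)).erase 1, w σ) *
      (discr F).natAbs ^ Module.finrank F L := by
    have h3 : |Algebra.norm ℚ (∏ σ ∈ (Finset.univ : Finset Gal(L/F)).erase 1, (ζ - σ ζ))| =
        ((∏ σ ∈ (Finset.univ : Finset Gal(L/F)).erase 1, w σ : ℕ) : ℚ) := by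
      rw [map_prod, Finset.abs_prod, Nat.cast_prod]
      refine Finset.prod_congr rfl fun σ hσ => (hw σ (Finset.ne_of_mem_erase hσ)).1
    rw [h3] at h1
    exact_mod_cast h1
  have hdF : (discr F).natAbs ≠ 0 := Int.natAbs_ne_zero.2 (discr_ne_zero F)
  have h3 : (discr L).natAbs.factorization p =
      (∑ σ ∈ (Finset.univ : Finset Gal(L/F)).erase 1, (w σ).factorization p) +
        Module.finrank F L * (discr F).natAbs.factorization p := by
    rw [h2, Nat.factorization_mul (Finset.prod_ne_zero_iff.2 fun σ _ => hw0 σ)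
      (pow_ne_zero _ hdF), Finsupp.add_apply, Nat.factorization_prod (fun σ _ => hw0 σ),
      Finsupp.finsetSum_apply, Nat.factorization_pow, Finsupp.smul_apply, smul_eq_mul]
  have h4 : Module.finrank F L = Nat.card F.fixingSubgroup :=
    (IsGalois.card_fixingSubgroup_eq_finrank F).symm
  have h5 : ∑ σ ∈ (Finset.univ : Finset Gal(L/F)).erase 1, (w σ).factorization p =
      ∑ σ ∈ (Finset.univ : Finset Gal(L/F)).erase 1,
        cc p a m (IsCyclotomicExtension.Rat.galEquivZMod n L (σ.restrictScalars ℚ)).val.val :=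
    Finset.sum_congr rfl fun σ hσ => (hw σ (Finset.ne_of_mem_erase hσ)).2
  have h6 := Finset.sum_erase_add (Finset.univ : Finset Gal(L/F))
    (fun σ => cc p a m (IsCyclotomicExtension.Rat.galEquivZMod n L (σ.restrictScalars ℚ)).val.val)
    (Finset.mem_univ 1)
  have h7 : ((1 : Gal(L/F)).restrictScalars ℚ) = (1 : Gal(L/ℚ)) := rfl
  simp only [h7] at h6
  rw [cc_one n L hn, sum_gal L F
    (fun σ => cc p a m (IsCyclotomicExtension.Rat.galEquivZMod n L σ).val.val), sum_cc n L F] at h6
  have h8 := disc_L n L hp hpm hn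
  rw [← h8, h3, h5, ← h6, h4]
  ring

end Pool.Agent.K4H60.CX
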