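import Mathlib

set_option autoImplicit false

open Polynomial

namespace Pool.Agent.K4H60.CX

section poly

variable {K L : Type*} [Field K] [Field L] [Algebra K L] [FiniteDimensional K L] [IsGalois K L]

lemma gal_inj {x : L} (hx : Algebra.adjoin K {x} = ⊤) :
    Function.Injective (fun σ : Gal(L/K) => σ x) := by
  intro σ τ h
  have h1 : (σ : L →ₐ[K] L) = (τ : L →ₐ[K] L) := by
    refine AlgHom.ext_of_adjoin_eq_top hx ?_
    intro y hy
    rw [Set.mem_singleton_iff] at hy
    subst hy
    exact h
  ext y
  exact DFunLike.congr_fun h1 y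

lemma map_minpoly {x : L} (hx : Algebra.adjoin K {x} = ⊤) :
    (minpoly K x).map (algebraMap K L) = ∏ σ : Gal(L/K), (X - C (σ x)) := by
  classical
  have hint : IsIntegral K x := Algebra.IsIntegral.isIntegral x
  have hdvd : (∏ σ : Gal(L/K), (X - C (σ x))) ∣ (minpoly K x).map (algebraMap K L) := by
    refine Finset.prod_dvd_of_coprime ?_ ?_
    · intro σ _ τ _ hne
      exact pairwise_coprime_X_sub_C (gal_inj hx) hne
    · intro σ _
      rw [dvd_iff_isRoot, IsRoot, eval_map_algebraMap]
      have : aeval (σ x) (minpoly K x) = σ (aeval x (minpoly K x)) := by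
        rw [← AlgEquiv.coe_algHom, aeval_algHom_apply]
      rw [this, minpoly.aeval, map_zero]
  have hm1 : (∏ σ : Gal(L/K), (X - C (σ x))).Monic := monic_prod_of_monic _ _ fun σ _ => monic_X_sub_C _
  have hm2 : ((minpoly K x).map (algebraMap K L)).Monic := (minpoly.monic hint).map _
  refine eq_of_monic_of_dvd_of_natDegree_le hm1 hm2 hdvd ?_
  rw [(minpoly.monic hint).natDegree_map, natDegree_prod_of_monic _ _ fun σ _ => monic_X_sub_C _]
  simp only [natDegree_X_sub_C, Finset.sum_const, Finset.card_univ, smul_eq_mul, mul_one]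
  rw [← Nat.card_eq_fintype_card, IsGalois.card_aut_eq_finrank]
  exact minpoly.natDegree_le x

lemma aeval_deriv {x : L} (hx : Algebra.adjoin K {x} = ⊤) [DecidableEq Gal(L/K)] :
    aeval x (derivative (minpoly K x)) =
      ∏ σ ∈ (Finset.univ : Finset Gal(L/K)).erase 1, (x - σ x) := by
  classical
  rw [← eval_map_algebraMap, ← derivative_map, map_minpoly hx,
    ← Finset.mul_prod_erase Finset.univ (fun σ : Gal(L/K) => (X - C (σ x))) (Finset.mem_univ 1),
    derivative_mul]
  simp [eval_prod]

end poly

end Pool.Agent.K4H60.CX
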