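import Pool.Agent.K4H60.CX.D1

set_option autoImplicit false

open Polynomial NumberField

namespace Pool.Agent.K4H60.CX

section tower

variable (n : ℕ) [NeZero n] (L : Type) [Field L] [NumberField L]
  [hL : IsCyclotomicExtension {n} ℚ L] (F : IntermediateField ℚ L)

lemma adjoin_F {ζ : L} (hζ : IsPrimitiveRoot ζ n) : Algebra.adjoin F {ζ} = ⊤ := by
  have h1 := IsCyclotomicExtension.adjoin_primitive_root_eq_top (A := ℚ) hζ
  rw [eq_top_iff]
  intro y _
  have hy : y ∈ Algebra.adjoin ℚ {ζ} := by rw [h1]; trivial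
  have h2 : Algebra.adjoin ℚ {ζ} ≤ (Algebra.adjoin F {ζ}).restrictScalars ℚ :=
    Algebra.adjoin_le (by simp)
  exact h2 hy

lemma adjoin_OF {ζ : L} (hζ : IsPrimitiveRoot ζ n) : Algebra.adjoin (𝓞 F) {hζ.toInteger} = ⊤ := by
  have h1 := IsCyclotomicExtension.Rat.adjoin_singleton_eq_top hζ
  rw [eq_top_iff]
  intro y _
  have hy : y ∈ Algebra.adjoin ℤ {hζ.toInteger} := by rw [h1]; trivial
  have h2 : Algebra.adjoin ℤ {hζ.toInteger} ≤ (Algebra.adjoin (𝓞 F) {hζ.toInteger}).restrictScalars ℤ :=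
    Algebra.adjoin_le (by simp)
  exact h2 hy

lemma different_F {ζ : L} (hζ : IsPrimitiveRoot ζ n) :
    differentIdeal (𝓞 F) (𝓞 L) =
      Ideal.span {aeval hζ.toInteger (derivative (minpoly (𝓞 F) hζ.toInteger))} := by
  have h := conductor_mul_differentIdeal (𝓞 F) F L hζ.toInteger (adjoin_F n L F hζ)
  rw [conductor_eq_top_of_adjoin_eq_top (adjoin_OF n L F hζ)] at h
  rw [← h, Ideal.top_mul]

lemma coe_aeval {ζ : L} (hζ : IsPrimitiveRoot ζ n) :
    ((aeval hζ.toInteger (derivative (minpoly (𝓞 F) hζ.toInteger)) : 𝓞 L) : L) =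
      aeval ζ (derivative (minpoly F ζ)) := by
  have h1 : minpoly F ζ = (minpoly (𝓞 F) hζ.toInteger).map (algebraMap (𝓞 F) F) := by
    have := minpoly.isIntegrallyClosed_eq_field_fractions F L (R := 𝓞 F)
      (Algebra.IsIntegral.isIntegral (R := 𝓞 F) hζ.toInteger)
    exact this
  rw [h1, derivative_map, aeval_map_algebraMap]
  exact (aeval_algebraMap_apply L hζ.toInteger
    (derivative (minpoly (𝓞 F) hζ.toInteger))).symm

lemma discr_tower {ζ : L} (hζ : IsPrimitiveRoot ζ n) [DecidableEq Gal(L/F)] :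
    ((discr L).natAbs : ℚ) =
      |Algebra.norm ℚ (∏ σ ∈ (Finset.univ : Finset Gal(L/F)).erase 1, (ζ - σ ζ))| *
        ((discr F).natAbs : ℚ) ^ Module.finrank F L := by
  rw [natAbs_discr_eq_absNorm_differentIdeal_mul_natAbs_discr_pow F (𝓞 F) L (𝓞 L),
    different_F n L F hζ, Ideal.absNorm_span_singleton]
  push_cast
  congr 1
  rw [Nat.cast_natAbs, Int.cast_abs, Algebra.coe_norm_int, coe_aeval]
  haveI : IsGalois ℚ L := IsCyclotomicExtension.isGalois {n} ℚ L
  rw [aeval_deriv (adjoin_F n L F hζ)]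

end tower

end Pool.Agent.K4H60.CX
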