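import Pool.Agent.K4H60.CX.D2

set_option autoImplicit false

open Polynomial NumberField IntermediateField

namespace Pool.Agent.K4H60.CX

section nt

variable {p : ℕ} (hp : p.Prime)
include hp

lemma fac_eval_pow (s : ℕ) : (eval 1 (cyclotomic (p ^ (s + 1)) ℤ)).natAbs = p := by
  have : Fact p.Prime := ⟨hp⟩
  rw [eval_one_cyclotomic_prime_pow]
  simp

lemma fac_eval_not {r : ℕ} (hr : 2 ≤ r) (h0 : ∀ s, r ≠ p ^ s) :
    (eval 1 (cyclotomic r ℤ)).natAbs.factorization p = 0 := by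
  by_cases h : ∃ q, q.Prime ∧ ∃ t, q ^ t = r
  · obtain ⟨q, hq, t, rfl⟩ := h
    have : Fact q.Prime := ⟨hq⟩
    obtain ⟨k, rfl⟩ : ∃ k, t = k + 1 := by
      cases t with
      | zero => simp at hr
      | succ k => exact ⟨k, rfl⟩
    rw [eval_one_cyclotomic_prime_pow]
    have hqp : q ≠ p := by
      rintro rfl
      exact h0 (k + 1) rfl
    simp [hq.factorization, hqp]
  · push Not at h
    rw [eval_one_cyclotomic_not_prime_pow (fun {q} hq k => h q hq k)]
    simp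

lemma nat_eval_ne {r : ℕ} (hr : 2 ≤ r) : (eval 1 (cyclotomic r ℤ)).natAbs ≠ 0 := by
  by_cases h : ∃ q, q.Prime ∧ ∃ t, q ^ t = r
  · obtain ⟨q, hq, t, rfl⟩ := h
    have : Fact q.Prime := ⟨hq⟩
    obtain ⟨k, rfl⟩ : ∃ k, t = k + 1 := by
      cases t with
      | zero => simp at hr
      | succ k => exact ⟨k, rfl⟩
    rw [eval_one_cyclotomic_prime_pow]
    simp [hq.ne_zero]
  · push Not at h
    rw [eval_one_cyclotomic_not_prime_pow (fun {q} hq k => h q hq k)]
    simp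

lemma sum_tot (j : ℕ) : ∑ i ∈ Finset.range (j + 1), (p ^ i).totient = p ^ j := by
  induction j with
  | zero => simp
  | succ k ih =>
    rw [Finset.sum_range_succ, ih, Nat.totient_prime_pow_succ hp]
    have : 1 ≤ p := hp.one_le
    obtain ⟨q, rfl⟩ := Nat.exists_eq_add_of_le this
    simp only [Nat.add_sub_cancel_left]
    ring

lemma tot_split {a j : ℕ} (hj : j < a) : (p ^ a).totient = (p ^ (a - j)).totient * p ^ j := by
  obtain ⟨k, rfl⟩ : ∃ k, a = k + 1 + j := ⟨a - j - 1, by omega⟩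
  rw [show k + 1 + j - j = k + 1 by omega, show k + 1 + j = (k + j) + 1 by ring,
    Nat.totient_prime_pow_succ hp, Nat.totient_prime_pow_succ hp]
  ring

end nt

section norm

variable (n : ℕ) [NeZero n] (L : Type) [Field L] [NumberField L]
  [hL : IsCyclotomicExtension {n} ℚ L]

lemma norm_one_sub {η : L} {r : ℕ} (hr : 2 ≤ r) (hη : IsPrimitiveRoot η r) :
    ∃ k : ℕ, k * r.totient = n.totient ∧
      |Algebra.norm ℚ (1 - η)| = ((eval 1 (cyclotomic r ℤ)).natAbs : ℚ) ^ k := by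
  haveI : NeZero r := ⟨by omega⟩
  haveI hK : IsCyclotomicExtension {r} ℚ ℚ⟮η⟯ := hη.intermediateField_adjoin_isCyclotomicExtension ℚ
  have hμ : IsPrimitiveRoot (AdjoinSimple.gen ℚ η) r := IsPrimitiveRoot.coe_submonoidClass_iff.mp hη
  refine ⟨Module.finrank ℚ⟮η⟯ L, ?_, ?_⟩
  · have h1 := Module.finrank_mul_finrank ℚ ℚ⟮η⟯ L
    rw [IsCyclotomicExtension.Rat.finrank n L, IsCyclotomicExtension.Rat.finrank r ℚ⟮η⟯] at h1
    rw [← h1, mul_comm]
  · have h2 : (1 - η : L) = algebraMap ℚ⟮η⟯ L (1 - AdjoinSimple.gen ℚ η) := by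
      rw [map_sub, map_one]; rfl
    rw [h2, ← Algebra.norm_norm (S := ℚ⟮η⟯), Algebra.norm_algebraMap, map_pow, abs_pow]
    congr 1
    rcases Nat.lt_or_eq_of_le hr with h | h
    · have h3 := hμ.sub_one_norm_eq_eval_cyclotomic h (cyclotomic.irreducible_rat (NeZero.pos r))
      have h4 : (1 - AdjoinSimple.gen ℚ η) = (-1 : ℚ⟮η⟯) * (AdjoinSimple.gen ℚ η - 1) := by ring
      rw [h4, map_mul, h3, abs_mul]
      have h5 : |Algebra.norm ℚ (-1 : ℚ⟮η⟯)| = 1 := by
        have : (-1 : ℚ⟮η⟯) = algebraMap ℚ ℚ⟮η⟯ (-1) := by simp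
        rw [this, Algebra.norm_algebraMap, abs_pow, abs_neg, abs_one, one_pow]
      rw [h5, one_mul, Nat.cast_natAbs, Int.cast_abs]
    · subst h
      have h3 : AdjoinSimple.gen ℚ η = -1 := hμ.eq_neg_one_of_two_right
      have h4 : (1 - AdjoinSimple.gen ℚ η) = algebraMap ℚ ℚ⟮η⟯ 2 := by
        rw [h3, map_ofNat]; norm_num
      rw [h4, Algebra.norm_algebraMap, IsCyclotomicExtension.Rat.finrank 2 ℚ⟮η⟯]
      simp [cyclotomic_two]

end norm

end Pool.Agent.K4H60.CX
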