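import Pool.Agent.K4H60.CX.D3

set_option autoImplicit false

open Polynomial NumberField IntermediateField

namespace Pool.Agent.K4H60.CX

/-- The exponent of `p` in the norm of `ζ - ζ ^ u`. -/
def cc (p a m u : ℕ) : ℕ :=
  m.totient * ∑ j ∈ Finset.range a, (p ^ j).totient * (if u ≡ 1 [MOD p ^ j * m] then 1 else 0)

section cc

variable {p : ℕ} (hp : p.Prime) {a m : ℕ}

lemma modEq_one_iff {u d : ℕ} (hu : 1 ≤ u) : u ≡ 1 [MOD d] ↔ d ∣ u - 1 := by
  rw [← Nat.modEq_iff_dvd' hu]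
  exact ⟨fun h => h.symm, fun h => h.symm⟩

lemma cc_zero {u : ℕ} (hu : 1 ≤ u) (hm : ¬ m ∣ u - 1) : cc p a m u = 0 := by
  rw [cc, Finset.sum_eq_zero, mul_zero]
  intro j _
  rw [if_neg, mul_zero]
  rw [modEq_one_iff hu]
  intro h
  exact hm ((dvd_mul_left m (p ^ j)).trans h)

include hp in
lemma cc_pow {u j₀ : ℕ} (hu : 1 ≤ u) (hj : j₀ < a) (hm : 0 < m)
    (hg : Nat.gcd (p ^ a * m) (u - 1) = m * p ^ j₀) : cc p a m u = m.totient * p ^ j₀ := by
  rw [cc]
  congr 1
  rw [← sum_tot hp j₀]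
  rw [← Finset.sum_subset (Finset.range_subset_range.2 (show j₀ + 1 ≤ a by omega))]
  · refine Finset.sum_congr rfl fun j hj' => ?_
    rw [Finset.mem_range] at hj'
    rw [if_pos, mul_one]
    rw [modEq_one_iff hu]
    have h1 : p ^ j * m ∣ Nat.gcd (p ^ a * m) (u - 1) := by
      rw [hg, mul_comm]
      exact mul_dvd_mul_left m (pow_dvd_pow p (by omega))
    exact h1.trans (Nat.gcd_dvd_right _ _)
  · intro j hja hj'
    rw [Finset.mem_range] at hja hj'
    rw [if_neg, mul_zero]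
    rw [modEq_one_iff hu]
    intro h
    have h1 : p ^ j * m ∣ Nat.gcd (p ^ a * m) (u - 1) :=
      Nat.dvd_gcd (mul_dvd_mul_right (pow_dvd_pow p hja.le) m) h
    rw [hg, mul_comm, Nat.mul_dvd_mul_iff_left hm, Nat.pow_dvd_pow_iff_le_right hp.one_lt] at h1
    omega

end cc

section w

variable (n : ℕ) [NeZero n] (L : Type) [Field L] [NumberField L]
  [hL : IsCyclotomicExtension {n} ℚ L]

lemma norm_zeta {ζ : L} (hζ : IsPrimitiveRoot ζ n) : |Algebra.norm ℚ ζ| = 1 := by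
  have h1 : (Algebra.norm ℚ ζ) ^ n = 1 := by
    rw [← map_pow, hζ.pow_eq_one, map_one]
  have h2 : |Algebra.norm ℚ ζ| ^ n = 1 := by rw [← abs_pow, h1, abs_one]
  exact (pow_eq_one_iff_of_nonneg (abs_nonneg _) (NeZero.ne n)).1 h2

lemma sigma_ne {ζ : L} (hζ : IsPrimitiveRoot ζ n) {σ : Gal(L/ℚ)} (hσ : σ ≠ 1) : σ ζ ≠ ζ := by
  intro h
  apply hσ
  have : FiniteDimensional ℚ L := inferInstance
  have : IsGalois ℚ L := IsCyclotomicExtension.isGalois {n} ℚ L
  exact gal_inj (K := ℚ) (IsCyclotomicExtension.adjoin_primitive_root_eq_top (A := ℚ) hζ) h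

variable {p a m : ℕ} (hp : p.Prime) (hpm : ¬ p ∣ m) (hn : n = p ^ a * m)
include hp hpm hn

lemma exists_w {ζ : L} (hζ : IsPrimitiveRoot ζ n) {σ : Gal(L/ℚ)} (hσ : σ ≠ 1) :
    ∃ w : ℕ, w ≠ 0 ∧ |Algebra.norm ℚ (ζ - σ ζ)| = w ∧
      w.factorization p = cc p a m (IsCyclotomicExtension.Rat.galEquivZMod n L σ).val.val := by
  set u := (IsCyclotomicExtension.Rat.galEquivZMod n L σ).val.val with hu
  have hne := sigma_ne n L hζ hσ
  have hσu : σ ζ = ζ ^ u := IsCyclotomicExtension.Rat.galEquivZMod_apply_of_pow_eq n L σ hζ.pow_eq_one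
  have hcop : Nat.Coprime u n := ZMod.val_coe_unit_coprime _
  have hu1 : 1 ≤ u := by
    rcases Nat.eq_zero_or_pos u with h | h
    · exfalso
      rw [h, Nat.coprime_zero_left] at hcop
      apply hne
      have h2 : ζ = 1 := by
        have := hζ.pow_eq_one
        rwa [hcop, pow_one] at this
      rw [h2, map_one]
    · exact h
  have hm0 : 0 < m := by
    rcases Nat.eq_zero_or_pos m with h | h
    · exact absurd (h ▸ dvd_zero p) hpm
    · exact h
  have hsub : ζ - σ ζ = ζ * (1 - ζ ^ (u - 1)) := by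
    rw [hσu, mul_sub, mul_one, ← pow_succ', Nat.sub_add_cancel hu1]
  have hη1 : ζ ^ (u - 1) ≠ 1 := by
    intro h
    apply hne
    rw [← sub_eq_zero, ← neg_sub, hsub, h, sub_self, mul_zero, neg_zero]
  have hu0 : u - 1 ≠ 0 := by
    intro h
    rw [h, pow_zero] at hη1
    exact hη1 rfl
  have hη := IsPrimitiveRoot.orderOf (ζ ^ (u - 1))
  have hord : orderOf (ζ ^ (u - 1)) = n / Nat.gcd n (u - 1) := by
    rw [orderOf_pow' ζ hu0, ← hζ.eq_orderOf]
  set r := orderOf (ζ ^ (u - 1)) with hr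
  have hgn : Nat.gcd n (u - 1) ∣ n := Nat.gcd_dvd_left _ _
  have hrn : r * Nat.gcd n (u - 1) = n := by rw [hord, Nat.div_mul_cancel hgn]
  have hr0 : r ≠ 0 := by
    intro h
    rw [h, zero_mul] at hrn
    exact NeZero.ne n hrn.symm
  have hr1 : r ≠ 1 := fun h => hη1 (orderOf_eq_one_iff.1 (hr ▸ h))
  have hr2 : 2 ≤ r := by omega
  obtain ⟨k, hk, hnorm⟩ := norm_one_sub n L hr2 hη
  refine ⟨(eval 1 (cyclotomic r ℤ)).natAbs ^ k, pow_ne_zero _ (nat_eval_ne hp hr2), ?_, ?_⟩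
  · rw [hsub, map_mul, abs_mul, norm_zeta n L hζ, one_mul, hnorm]
    push_cast
    rfl
  · rw [Nat.factorization_pow, Finsupp.smul_apply, smul_eq_mul]
    by_cases hm : m ∣ u - 1
    · have hmg : m ∣ Nat.gcd n (u - 1) := Nat.dvd_gcd (hn ▸ dvd_mul_left m (p ^ a)) hm
      obtain ⟨g', hg'⟩ := hmg
      have h1 : g' ∣ p ^ a := by
        rw [hg', hn, mul_comm (p ^ a) m] at hgn
        exact Nat.dvd_of_mul_dvd_mul_left hm0 hgn
      obtain ⟨j₀, hj₀, rfl⟩ := (Nat.dvd_prime_pow hp).1 h1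
      have hrp : r = p ^ (a - j₀) := by
        have h2 : r * p ^ j₀ = p ^ (a - j₀) * p ^ j₀ := by
          rw [← pow_add, Nat.sub_add_cancel hj₀]
          have h3 : m * (r * p ^ j₀) = m * p ^ a := by
            rw [mul_left_comm, ← hg', hrn, hn, mul_comm]
          exact Nat.eq_of_mul_eq_mul_left hm0 h3
        exact Nat.eq_of_mul_eq_mul_right (pow_pos hp.pos _) h2
      have hja : j₀ < a := by
        rcases Nat.lt_or_eq_of_le hj₀ with h | h
        · exact h
        · exfalso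
          apply hr1
          rw [hrp, h, Nat.sub_self, pow_zero]
      rw [cc_pow hp hu1 hja hm0 (by rw [← hn, hg'])]
      obtain ⟨s, hs⟩ : ∃ s, a - j₀ = s + 1 := ⟨a - j₀ - 1, by omega⟩
      have h4 : (eval 1 (cyclotomic r ℤ)).natAbs = p := by
        rw [hrp, hs]
        exact fac_eval_pow hp s
      rw [h4, hp.factorization, Finsupp.single_eq_same, mul_one]
      have hcp : Nat.Coprime (p ^ a) m := Nat.Coprime.pow_left a ((Nat.Prime.coprime_iff_not_dvd hp).2 hpm)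
      rw [hn, Nat.totient_mul hcp, tot_split hp hja, hrp] at hk
      have h5 : 0 < (p ^ (a - j₀)).totient := Nat.totient_pos.2 (pow_pos hp.pos _)
      apply Nat.eq_of_mul_eq_mul_right h5
      rw [hk]
      ring
    · rw [cc_zero hu1 hm, fac_eval_not hp hr2, mul_zero]
      intro s hs
      apply hm
      have h1 : m ∣ Nat.gcd n (u - 1) := by
        have h2 : m ∣ p ^ s * Nat.gcd n (u - 1) := by
          rw [← hs, hrn, hn]
          exact dvd_mul_left _ _
        exact (Nat.Coprime.dvd_mul_left (Nat.Coprime.pow_right s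
          ((Nat.Prime.coprime_iff_not_dvd hp).2 hpm).symm)).1 h2
      exact h1.trans (Nat.gcd_dvd_right _ _)

end w

end Pool.Agent.K4H60.CX
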